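import Pool.Agent.Helper38.Curl.Main

namespace Pool.Agent.Results.MP_9cc3a3_an.NoMinimizer

open MeasureTheory Pool.Agent.Helper38.Curl

/-- **Negative answer to Q1.**  Every bounded open subset of Euclidean three-space with Lipschitz
boundary and volume one has a first positive curl eigenvalue, and some other set of the same class
has a strictly smaller one; so the infimum of the first positive curl eigenvalue is not attained. -/
theorem result (Ω : Set E) (hΩ : LipDom Ω) (hvol : volume Ω = 1) :
    ∃ (Ω' : Set E) (μ μ' : ℝ), LipDom Ω' ∧ volume Ω' = 1 ∧ IsMuOne Ω μ ∧ IsMuOne Ω' μ' ∧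
      μ' < μ :=
  exists_better Ω hΩ hvol

end Pool.Agent.Results.MP_9cc3a3_an.NoMinimizer
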